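import Pool.Agent.H31.PC.Targets

/-!
# Board `pc_modules`, module NZ: good lines
-/

namespace Pool.Agent.H48.PC.NZ

open Finset MvPolynomial Pool.Agent.H31.PC Pool.Agent.H31.RZ

section general

variable {R : Type*} [CommRing R]

/-- the pencil of lines through `(a : b : 1)` with the slope as a variable -/
noncomputable def pl (a b : R) : MvPolynomial (Fin 3) R →ₐ[R] Polynomial (Polynomial R) :=
  aeval ![1 + Polynomial.C (Polynomial.C a) * Polynomial.X,
    Polynomial.C Polynomial.X + Polynomial.C (Polynomial.C b) * Polynomial.X, Polynomial.X]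

theorem pl_eq (a b : R) (f : MvPolynomial (Fin 3) R) : pl a b f = ∑ μ ∈ f.support,
    Polynomial.C (Polynomial.C (f.coeff μ)) *
      ((1 + Polynomial.C (Polynomial.C a) * Polynomial.X) ^ μ 0 *
      (Polynomial.C Polynomial.X + Polynomial.C (Polynomial.C b) * Polynomial.X) ^ μ 1 *
      Polynomial.X ^ μ 2) := by
  rw [pl, aeval_def, eval₂_eq']
  refine Finset.sum_congr rfl fun μ _ => ?_
  rw [Fin.prod_univ_three]
  rfl

theorem nd0 (a : Polynomial R) :
    (1 + Polynomial.C a * Polynomial.X : Polynomial (Polynomial R)).natDegree ≤ 1 := by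
  refine (Polynomial.natDegree_add_le _ _).trans (max_le ?_ ?_)
  · rw [Polynomial.natDegree_one]
    exact Nat.zero_le _
  · exact (Polynomial.natDegree_C_mul_le _ _).trans Polynomial.natDegree_X_le

theorem nd1 (c a : Polynomial R) :
    (Polynomial.C c + Polynomial.C a * Polynomial.X : Polynomial (Polynomial R)).natDegree ≤ 1 := by
  refine (Polynomial.natDegree_add_le _ _).trans (max_le ?_ ?_)
  · rw [Polynomial.natDegree_C]
    exact Nat.zero_le _
  · exact (Polynomial.natDegree_C_mul_le _ _).trans Polynomial.natDegree_X_le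

theorem nd2 (j : ℕ) : (Polynomial.X ^ j : Polynomial (Polynomial R)).natDegree ≤ j :=
  Polynomial.natDegree_X_pow_le j

theorem natDegree_pl {a b : R} {f : MvPolynomial (Fin 3) R} {d : ℕ} (hf : f.IsHomogeneous d) :
    (pl a b f).natDegree ≤ d := by
  rw [pl_eq]
  refine Polynomial.natDegree_sum_le_of_forall_le _ _ fun μ hμ => ?_
  have h3 : μ.degree = d := by
    by_contra h
    exact mem_support_iff.1 hμ (hf.coeff_eq_zero h)
  rw [Finsupp.degree_eq_sum, Fin.sum_univ_three] at h3
  refine (Polynomial.natDegree_C_mul_le _ _).trans ?_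
  refine Polynomial.natDegree_mul_le.trans ?_
  refine (add_le_add Polynomial.natDegree_mul_le (nd2 _)).trans ?_
  have h0 := Polynomial.natDegree_pow_le_of_le (μ 0) (nd0 (Polynomial.C a))
  have h1 := Polynomial.natDegree_pow_le_of_le (μ 1) (nd1 (Polynomial.X) (Polynomial.C b))
  omega

theorem coeff_pl {a b : R} {f : MvPolynomial (Fin 3) R} {d : ℕ} (hf : f.IsHomogeneous d) :
    (pl a b f).coeff d = Polynomial.C (eval ![a, b, 1] f) := by
  rw [pl_eq, Polynomial.finsetSum_coeff, eval_eq', map_sum]
  refine Finset.sum_congr rfl fun μ hμ => ?_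
  have h3 : μ.degree = d := by
    by_contra h
    exact mem_support_iff.1 hμ (hf.coeff_eq_zero h)
  rw [Finsupp.degree_eq_sum, Fin.sum_univ_three] at h3
  have h0 := Polynomial.natDegree_pow_le_of_le (μ 0) (nd0 (Polynomial.C a))
  have h1 := Polynomial.natDegree_pow_le_of_le (μ 1) (nd1 (Polynomial.X) (Polynomial.C b))
  rw [Polynomial.coeff_C_mul, ← h3, Polynomial.coeff_mul_add_eq_of_natDegree_le (df := μ 0 + μ 1)
    (dg := μ 2), Polynomial.coeff_mul_add_eq_of_natDegree_le (df := μ 0) (dg := μ 1),
    Fin.prod_univ_three]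
  · have e0 := Polynomial.coeff_pow_of_natDegree_le (m := μ 0) (nd0 (Polynomial.C a))
    have e1 := Polynomial.coeff_pow_of_natDegree_le (m := μ 1)
      (nd1 (Polynomial.X) (Polynomial.C b))
    rw [mul_one] at e0 e1
    rw [e0, e1, Polynomial.coeff_X_pow_self]
    simp [Polynomial.coeff_one, Polynomial.coeff_C]
  · omega
  · omega
  · refine Polynomial.natDegree_mul_le.trans ?_
    omega
  · exact nd2 _

/-- the degree in the slope -/
def Q (n : ℕ) (P : Polynomial (Polynomial R)) : Prop := ∀ j, (P.coeff j).natDegree ≤ n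

theorem Q.mul {m n : ℕ} {P P' : Polynomial (Polynomial R)} (h : Q m P) (h' : Q n P') :
    Q (m + n) (P * P') := by
  intro j
  rw [Polynomial.coeff_mul]
  refine Polynomial.natDegree_sum_le_of_forall_le _ _ fun x _ => ?_
  exact Polynomial.natDegree_mul_le.trans (add_le_add (h _) (h' _))

theorem Q.sum {ι : Type*} {s : Finset ι} {n : ℕ} {P : ι → Polynomial (Polynomial R)}
    (h : ∀ i ∈ s, Q n (P i)) : Q n (∑ i ∈ s, P i) := by
  intro j
  rw [Polynomial.finsetSum_coeff]
  exact Polynomial.natDegree_sum_le_of_forall_le _ _ fun x hx => h x hx j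

theorem Q.pow {m : ℕ} {P : Polynomial (Polynomial R)} (h : Q m P) (k : ℕ) : Q (k * m) (P ^ k) := by
  induction k with
  | zero =>
    intro j
    rw [pow_zero, Polynomial.coeff_one]
    split_ifs <;> simp
  | succ k ih =>
    rw [pow_succ, add_mul, one_mul]
    exact ih.mul h

theorem Q.mono {m n : ℕ} {P : Polynomial (Polynomial R)} (h : Q m P) (hmn : m ≤ n) : Q n P :=
  fun j => (h j).trans hmn

theorem Q.add {n : ℕ} {P P' : Polynomial (Polynomial R)} (h : Q n P) (h' : Q n P') :
    Q n (P + P') := by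
  intro j
  rw [Polynomial.coeff_add]
  exact (Polynomial.natDegree_add_le _ _).trans (max_le (h j) (h' j))

theorem Q_C (c : Polynomial R) : Q c.natDegree (Polynomial.C c) := by
  intro j
  rw [Polynomial.coeff_C]
  split_ifs
  · exact le_rfl
  · simp

theorem Q_X : Q 0 (Polynomial.X : Polynomial (Polynomial R)) := by
  intro j
  rw [Polynomial.coeff_X]
  split_ifs <;> simp

theorem Q_one : Q 0 (1 : Polynomial (Polynomial R)) := by
  intro j
  rw [Polynomial.coeff_one]
  split_ifs <;> simp

theorem Q_CC (c : R) : Q 0 (Polynomial.C (Polynomial.C c)) :=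
  (Q_C _).mono (by rw [Polynomial.natDegree_C])

theorem Q_pl (a b : R) {f : MvPolynomial (Fin 3) R} {d : ℕ} (hf : f.IsHomogeneous d) :
    Q d (pl a b f) := by
  rw [pl_eq]
  refine Q.sum fun μ hμ => ?_
  have h3 : μ.degree = d := by
    by_contra h
    exact mem_support_iff.1 hμ (hf.coeff_eq_zero h)
  rw [Finsupp.degree_eq_sum, Fin.sum_univ_three] at h3
  have h0 : Q 0 (1 + Polynomial.C (Polynomial.C a) * Polynomial.X) :=
    Q_one.add ((Q_CC a).mul Q_X)
  have h1 : Q 1 (Polynomial.C Polynomial.X + Polynomial.C (Polynomial.C b) * Polynomial.X) :=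
    ((Q_C _).mono Polynomial.natDegree_X_le).add (((Q_CC b).mul Q_X).mono (by omega))
  have h2 := (Q_CC (f.coeff μ)).mul (((h0.pow (μ 0)).mul (h1.pow (μ 1))).mul (Q_X.pow (μ 2)))
  refine h2.mono ?_
  omega

theorem natDegree_resultant {P P' : Polynomial (Polynomial R)} {n : ℕ} (h : Q n P) (h' : Q n P')
    (d e : ℕ) : (P.resultant P' d e).natDegree ≤ (d + e) * n := by
  rw [Polynomial.resultant, Matrix.det_apply]
  refine Polynomial.natDegree_sum_le_of_forall_le _ _ fun σ _ => ?_
  have h1 : (∏ i, Polynomial.sylvester P P' d e (σ i) i).natDegree ≤ (d + e) * n := by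
    refine (Polynomial.natDegree_prod_le _ _).trans ?_
    have h2 : ∀ i ∈ (Finset.univ : Finset (Fin (d + e))),
        (Polynomial.sylvester P P' d e (σ i) i).natDegree ≤ n := by
      intro i _
      induction i using Fin.addCases with
      | left i =>
        rw [Polynomial.sylvester, Matrix.of_apply, Fin.addCases_left]
        split_ifs
        · exact h' _
        · simp
      | right i =>
        rw [Polynomial.sylvester, Matrix.of_apply, Fin.addCases_right]
        split_ifs
        · exact h _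
        · simp
    refine (Finset.sum_le_card_nsmul _ _ _ h2).trans ?_
    rw [Finset.card_univ, Fintype.card_fin, smul_eq_mul]
  rcases Int.units_eq_one_or (Equiv.Perm.sign σ) with h3 | h3
  · rw [h3, one_smul]
    exact h1
  · rw [h3]
    have h4 : ((-1 : ℤˣ) • ∏ i, Polynomial.sylvester P P' d e (σ i) i) =
        -∏ i, Polynomial.sylvester P P' d e (σ i) i := by
      rw [Units.smul_def]
      simp
    rw [h4, Polynomial.natDegree_neg]
    exact h1

end general

/-- two variables -/
noncomputable def mo2 (i j : ℕ) : Fin 2 →₀ ℕ := Finsupp.equivFunOnFinite.symm ![i, j]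

theorem mo2_zero (i j : ℕ) : mo2 i j 0 = i := rfl
theorem mo2_one (i j : ℕ) : mo2 i j 1 = j := rfl

/-- a point with small coordinates off a curve -/
theorem exists_point {k : Type*} [Field k] {P : MvPolynomial (Fin 3) k} {N : ℕ}
    (hP : P.IsHomogeneous N) (h0 : P ≠ 0) (S : Finset k) (hS : N < S.card) :
    ∃ a ∈ S, ∃ b ∈ S, eval ![a, b, 1] P ≠ 0 := by
  by_contra hcon
  push Not at hcon
  apply h0
  have hd : ∀ μ ∈ P.support, μ 0 + μ 1 + μ 2 = N := by
    intro μ hμ
    have h3 : μ.degree = N := by
      by_contra h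
      exact mem_support_iff.1 hμ (hP.coeff_eq_zero h)
    rwa [Finsupp.degree_eq_sum, Fin.sum_univ_three] at h3
  have key : (∑ μ ∈ P.support, monomial (mo2 (μ 0) (μ 1)) (P.coeff μ)) = 0 := by
    refine eq_zero_of_eval_zero_at_prod_finset _ (fun _ => S) ?_ ?_
    · intro i
      refine lt_of_le_of_lt ?_ hS
      refine (degreeOf_sum_le _ _ _).trans ?_
      refine Finset.sup_le fun μ hμ => ?_
      rw [degreeOf_monomial_eq _ _ (mem_support_iff.1 hμ)]
      have := hd μ hμ
      fin_cases i
      · change mo2 (μ 0) (μ 1) 0 ≤ N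
        rw [mo2_zero]
        omega
      · change mo2 (μ 0) (μ 1) 1 ≤ N
        rw [mo2_one]
        omega
    · intro x hx
      have h1 := hcon (x 0) (hx 0) (x 1) (hx 1)
      rw [eval_eq'] at h1
      rw [map_sum, ← h1]
      refine Finset.sum_congr rfl fun μ _ => ?_
      rw [eval_monomial, Finsupp.prod_fintype _ _ (fun i => pow_zero _), Fin.prod_univ_two,
        Fin.prod_univ_three, mo2_zero, mo2_one]
      simp
  ext ν
  rw [coeff_zero]
  by_contra h4
  have h5 : ν ∈ P.support := mem_support_iff.2 h4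
  apply h4
  have h6 := congrArg (coeff (mo2 (ν 0) (ν 1))) key
  rw [coeff_sum, coeff_zero, Finset.sum_eq_single ν] at h6
  · rw [coeff_monomial, if_pos rfl] at h6
    exact h6
  · intro μ hμ hne
    rw [coeff_monomial, if_neg]
    intro h7
    apply hne
    have e0 : μ 0 = ν 0 := by
      have := DFunLike.congr_fun h7 0
      rwa [mo2_zero, mo2_zero] at this
    have e1 : μ 1 = ν 1 := by
      have := DFunLike.congr_fun h7 1
      rwa [mo2_one, mo2_one] at this
    have e2 : μ 2 = ν 2 := by
      have q1 := hd μ hμ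
      have q2 := hd ν h5
      omega
    ext i
    fin_cases i
    · exact e0
    · exact e1
    · exact e2
  · intro h
    exact absurd h5 h

/-- polynomials in two variables as polynomials over polynomials -/
noncomputable def E (k : Type*) [Field k] :
    MvPolynomial (Fin 2) k ≃ₐ[k] Polynomial (Polynomial k) :=
  (finSuccEquiv k 1).trans (Polynomial.mapAlgEquiv (MvPolynomial.uniqueAlgEquiv k (Fin 1)))

theorem E_X0 (k : Type*) [Field k] : E k (X 0) = Polynomial.X := by
  rw [E, AlgEquiv.trans_apply, finSuccEquiv_X_zero]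
  simp

theorem E_X1 (k : Type*) [Field k] : E k (X 1) = Polynomial.C Polynomial.X := by
  have h : (X 1 : MvPolynomial (Fin 2) k) = X (Fin.succ 0) := rfl
  rw [E, AlgEquiv.trans_apply, h, finSuccEquiv_X_succ]
  simp

theorem E_de (p : ℕ) [Fact p.Prime] (a b : ZMod p) (F : MvPolynomial (Fin 3) (ZMod p)) :
    E (ZMod p) (de p a b F) = pl a b F := by
  have hC : ∀ c : ZMod p, E (ZMod p) (C c) = Polynomial.C (Polynomial.C c) := by
    intro c
    have h := (E (ZMod p)).commutes c
    exact h
  have h : ((E (ZMod p)).toAlgHom).comp (de p a b) = pl a b := by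
    apply MvPolynomial.algHom_ext
    intro i
    rw [AlgHom.comp_apply]
    change E (ZMod p) (de p a b (X i)) = pl a b (X i)
    rw [de, pl, aeval_X, aeval_X]
    fin_cases i
    · change E (ZMod p) (1 + C a * X 0) = 1 + Polynomial.C (Polynomial.C a) * Polynomial.X
      rw [map_add, map_one, map_mul, hC, E_X0]
    · change E (ZMod p) (X 1 + C b * X 0) =
        Polynomial.C Polynomial.X + Polynomial.C (Polynomial.C b) * Polynomial.X
      rw [map_add, map_mul, hC, E_X0, E_X1]
    · exact E_X0 _
  exact congrArg (fun g => g F) h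

theorem resultant_ne {k : Type*} [Field k] {P P' : Polynomial (Polynomial k)} {d e : ℕ}
    (he : 1 ≤ e) (hed : e < d)
    (hP : P.natDegree ≤ d) (hP' : P'.natDegree ≤ e) (h1 : P.coeff d ≠ 0) (h2 : P'.coeff e ≠ 0)
    (hirr : Irreducible P) : P.resultant P' d e ≠ 0 := by
  have hd : P.natDegree = d := le_antisymm hP (Polynomial.le_natDegree_of_ne_zero h1)
  have hd' : P'.natDegree = e := le_antisymm hP' (Polynomial.le_natDegree_of_ne_zero h2)
  have hprim : P.IsPrimitive := hirr.isPrimitive (by omega)
  let K := FractionRing (Polynomial k)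
  have hinj : Function.Injective (algebraMap (Polynomial k) K) :=
    IsFractionRing.injective (Polynomial k) K
  have hirr' : Irreducible (P.map (algebraMap (Polynomial k) K)) :=
    (hprim.irreducible_iff_irreducible_map_fraction_map (K := K)).1 hirr
  have hcop : IsCoprime (P.map (algebraMap (Polynomial k) K))
      (P'.map (algebraMap (Polynomial k) K)) := by
    rw [hirr'.coprime_iff_not_dvd]
    intro hdvd
    have h3 : P'.map (algebraMap (Polynomial k) K) ≠ 0 := by
      rw [Ne, Polynomial.map_eq_zero_iff hinj]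
      rintro rfl
      exact h2 (Polynomial.coeff_zero _)
    have h4 := Polynomial.natDegree_le_of_dvd hdvd h3
    rw [Polynomial.natDegree_map_eq_of_injective hinj, Polynomial.natDegree_map_eq_of_injective
      hinj, hd, hd'] at h4
    omega
  have h5 := Polynomial.resultant_ne_zero _ _ hcop
  rw [Polynomial.natDegree_map_eq_of_injective hinj, Polynomial.natDegree_map_eq_of_injective
    hinj, hd, hd', Polynomial.resultant_map_map] at h5
  intro h6
  apply h5
  rw [h6, map_zero]

theorem map_pl (p : ℕ) (a b : ℤ) (f : MvPolynomial (Fin 3) ℤ) :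
    (pl a b f).map (Polynomial.mapRingHom (Int.castRingHom (ZMod p))) =
      pl (a : ZMod p) (b : ZMod p) (rp p f) := by
  have h : (Polynomial.mapRingHom (Polynomial.mapRingHom (Int.castRingHom (ZMod p)))).comp
      (pl a b).toRingHom = ((pl (a : ZMod p) (b : ZMod p)).toRingHom).comp (rp p) := by
    apply MvPolynomial.ringHom_ext
    · intro r
      simp
    · intro i
      rw [RingHom.comp_apply, RingHom.comp_apply]
      have e1 : (pl a b).toRingHom (X i) = pl a b (X i) := rfl
      have e2 : (pl (a : ZMod p) (b : ZMod p)).toRingHom (rp p (X i)) =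
        pl (a : ZMod p) (b : ZMod p) (rp p (X i)) := rfl
      rw [e1, e2, rp, map_X, pl, pl, aeval_X, aeval_X]
      fin_cases i <;> simp
  have h2 := congrArg (fun g => g f) h
  exact h2

theorem map_eval_pl (a b s : ℤ) (f : MvPolynomial (Fin 3) ℤ) :
    (pl a b f).map (Polynomial.evalRingHom s) = ln a b s f := by
  have h : (Polynomial.mapRingHom (Polynomial.evalRingHom s)).comp
      (pl a b).toRingHom = (ln a b s).toRingHom := by
    apply MvPolynomial.ringHom_ext
    · intro r
      simp
    · intro i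
      rw [RingHom.comp_apply]
      have e1 : (pl a b).toRingHom (X i) = pl a b (X i) := rfl
      have e2 : (ln a b s).toRingHom (X i) = ln a b s (X i) := rfl
      rw [e1, e2, ln, pl, aeval_X, aeval_X]
      fin_cases i <;> simp
  have h2 := congrArg (fun g => g f) h
  exact h2

/-- a pair without roots -/
theorem exists_pair {D : ℕ} {Rz : Polynomial ℤ} (h0 : Rz ≠ 0) (hD : Rz.natDegree ≤ D) :
    ∃ k ≤ D, Rz.eval ((2 * k : ℕ) : ℤ) ≠ 0 ∧ Rz.eval (((2 * k + 1 : ℕ)) : ℤ) ≠ 0 := by
  by_contra hcon
  push Not at hcon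
  have h1 : ∀ k : ℕ, ∃ r : ℕ, k ≤ D → Rz.eval ((2 * k + r : ℕ) : ℤ) = 0 ∧ r ≤ 1 := by
    intro k
    by_cases hk : k ≤ D
    · by_cases h2 : Rz.eval ((2 * k : ℕ) : ℤ) = 0
      · exact ⟨0, fun _ => ⟨by rw [add_zero]; exact h2, by omega⟩⟩
      · exact ⟨1, fun _ => ⟨hcon k hk h2, le_rfl⟩⟩
    · exact ⟨0, fun h => absurd h hk⟩
  choose r hr using h1
  have h3 : (Finset.range (D + 1)).card ≤ Rz.roots.toFinset.card := by
    refine Finset.card_le_card_of_injOn (fun k => ((2 * k + r k : ℕ) : ℤ)) ?_ ?_
    · intro k hk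
      have hk1 : k ≤ D := by
        have := Finset.mem_range.1 (Finset.mem_coe.1 hk)
        omega
      rw [Finset.mem_coe, Multiset.mem_toFinset, Polynomial.mem_roots h0]
      exact (hr k hk1).1
    · intro k hk l hl hkl
      have hk1 : k ≤ D := by
        have := Finset.mem_range.1 (Finset.mem_coe.1 hk)
        omega
      have hl1 : l ≤ D := by
        have := Finset.mem_range.1 (Finset.mem_coe.1 hl)
        omega
      have e := (hr k hk1).2
      have e' := (hr l hl1).2
      have e1 : ((2 * k + r k : ℕ) : ℤ) = ((2 * l + r l : ℕ) : ℤ) := hkl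
      have e2 : 2 * k + r k = 2 * l + r l := by exact_mod_cast e1
      omega
  have h4 : Rz.roots.toFinset.card ≤ Rz.natDegree :=
    (Multiset.toFinset_card_le _).trans (Polynomial.card_roots' _)
  rw [Finset.card_range] at h3
  omega

theorem pf_NZ : T_NZ := by
  intro d e he hed
  refine ⟨2 * ((d + e) * d) + 6 + (d + e + 1), by omega, ?_⟩
  intro p hp hKp f g hf hg hND hf0 hg0
  have hfact : Fact p.Prime := ⟨hp⟩
  have hF : (rp p f).IsHomogeneous d := hf.map _
  have hG : (rp p g).IsHomogeneous e := hg.map _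
  have hFG : (rp p f * rp p g).IsHomogeneous (d + e) := hF.mul hG
  -- the grid
  have hinj : Set.InjOn (fun n : ℕ => (n : ZMod p)) (Finset.range (d + e + 1) : Finset ℕ) := by
    intro m hm n hn hmn
    have hm1 := Finset.mem_range.1 (Finset.mem_coe.1 hm)
    have hn1 := Finset.mem_range.1 (Finset.mem_coe.1 hn)
    have h1 := (ZMod.natCast_eq_natCast_iff' _ _ _).1 hmn
    rwa [Nat.mod_eq_of_lt (by omega), Nat.mod_eq_of_lt (by omega)] at h1
  have hcard : ((Finset.range (d + e + 1)).image (fun n : ℕ => (n : ZMod p))).card = d + e + 1 := by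
    rw [Finset.card_image_of_injOn hinj, Finset.card_range]
  obtain ⟨a', ha', b', hb', hab⟩ := exists_point hFG (mul_ne_zero hf0 hg0)
    ((Finset.range (d + e + 1)).image (fun n : ℕ => (n : ZMod p))) (by rw [hcard]; omega)
  obtain ⟨a, ha, rfl⟩ := Finset.mem_image.1 ha'
  obtain ⟨b, hb, rfl⟩ := Finset.mem_image.1 hb'
  rw [Finset.mem_range] at ha hb
  rw [map_mul, mul_ne_zero_iff] at hab
  obtain ⟨hfa, hga⟩ := hab
  have hirr : Irreducible (pl (a : ZMod p) (b : ZMod p) (rp p f)) := by
    have h1 := hND a b (by omega) (by omega) hfa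
    rw [← E_de]
    exact (MulEquiv.irreducible_iff (E (ZMod p)).toMulEquiv).2 h1
  have hres := resultant_ne he hed (natDegree_pl hF) (natDegree_pl hG)
    (by rw [coeff_pl hF, Ne, Polynomial.C_eq_zero]; exact hfa)
    (by rw [coeff_pl hG, Ne, Polynomial.C_eq_zero]; exact hga) hirr
  -- over the integers
  have hRz : (pl (a : ℤ) (b : ℤ) f).resultant (pl (a : ℤ) (b : ℤ) g) d e ≠ 0 := by
    intro h0
    apply hres
    have h1 := map_pl p a b f
    have h2 := map_pl p a b g
    rw [Int.cast_natCast, Int.cast_natCast] at h1 h2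
    rw [← h1, ← h2, Polynomial.resultant_map_map, h0, map_zero]
  have hdeg := natDegree_resultant (Q_pl (a : ℤ) (b : ℤ) hf)
    ((Q_pl (a : ℤ) (b : ℤ) hg).mono hed.le) d e
  obtain ⟨k, hk, hk1, hk2⟩ := exists_pair hRz hdeg
  have hev : ∀ s : ℤ, ((pl (a : ℤ) (b : ℤ) f).resultant (pl (a : ℤ) (b : ℤ) g) d e).eval s =
      (ln a b s f).resultant (ln a b s g) d e := by
    intro s
    rw [← map_eval_pl, ← map_eval_pl, Polynomial.resultant_map_map]
    rfl
  refine ⟨a, b, 2 * k, by omega, by omega, by omega, ?_, ?_, ?_⟩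
  · intro h0
    apply hga
    have h1 : eval ![(a : ZMod p), (b : ZMod p), 1] (rp p g) =
        Int.castRingHom (ZMod p) (eval ![(a : ℤ), (b : ℤ), 1] g) := by
      rw [rp, eval_map, ← MvPolynomial.eval₂_id, MvPolynomial.hom_eval₂]
      congr 1
      ext i
      fin_cases i <;> simp
    rw [h1, h0, map_zero]
  · rw [← hev]
    exact hk1
  · rw [← hev]
    have h1 : ((2 * k : ℕ) : ℤ) + 1 = ((2 * k + 1 : ℕ) : ℤ) := by push_cast; ring
    rw [h1]
    exact hk2

end Pool.Agent.H48.PC.NZ
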